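import Pool.Agent.H31.BQ

namespace Pool.Agent.Results.MP_5fe329_al.Main

open Pool.Agent.H31.BQ

theorem result : ∃ (A K : Type) (_ : CommRing A) (_ : IsDomain A) (_ : Field K) (_ : Algebra A K),
    IsFractionRing A K ∧ PerfectField K ∧
      ∃ (R : Subring (MvPowerSeries ℕ K)) (T : Subring R),
        IsBig R ∧ IsFlat A T ∧ ¬IsPoly T :=
  ⟨A, K, inferInstance, inferInstance, inferInstance, inferInstance, inferInstance, perf, fin⟩

end Pool.Agent.Results.MP_5fe329_al.Main
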